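import Pool.Agent.helper4.GA.Spec

set_option autoImplicit false

open Finset
open Pool.Agent.helper32.Cant

namespace Pool.Agent.GA

theorem AVG (hSHF : SHF_stmt) (hPT1 : PT1_stmt) (hPT2 : PT2_stmt) : AVG_stmt := by
  intro n g κ T z ω hg hT hκ hω
  have hg1 : 1 ≤ g := by omega
  have h1 : ∀ o : Fin (T + 1) → Fin (2 * g), ∑ sh ∈ range (3 ^ n),
      Real.exp (-((pat g κ o).dropLast.map (fun i => ind (good n sh i z) * ω i)).sum) ≤
      3 ^ n * Real.exp (-(((pat g κ o).dropLast.map ω).sum / 3)) := by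
    intro o
    obtain ⟨-, hch, -, -, hk, -⟩ := hPT1 g κ T o hg1 hT
    apply hSHF n z ω _ hω
    · have h2 : List.IsChain (fun i j => i + g ≤ j) (pat g κ o).dropLast := hch.dropLast
      exact h2.imp (fun i j h => by omega)
    · intro i hi
      have := hk i hi
      omega
  calc _ ≤ ∑ o : Fin (T + 1) → Fin (2 * g), (3 : ℝ) ^ n * Real.exp (-(((pat g κ o).dropLast.map ω).sum / 3)) :=
        Finset.sum_le_sum fun o _ => h1 o
    _ = 3 ^ n * ∑ o : Fin (T + 1) → Fin (2 * g), Real.exp (-(((pat g κ o).dropLast.map ω).sum / 3)) := by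
        rw [Finset.mul_sum]
    _ ≤ 3 ^ n * ((2 * g : ℝ) ^ (T + 1) * Real.exp (-((∑ i ∈ range (2 * g * T), ω i) / (20 * g)))) :=
        mul_le_mul_of_nonneg_left (hPT2 g κ T ω hg1 hT hω) (by positivity)
    _ = _ := by ring

end Pool.Agent.GA
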